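import Pool.Agent.Helper22.LIL.Defs
import Pool.Agent.Helper53.OM.Mert

/-!
# Block MU of the LIL project (MP_fb29e9_nt): Mertens, upper bound for the primes `1 mod 4`
-/

open MeasureTheory Filter Set
open scoped Real Topology
open scoped ArithmeticFunction

namespace Pool.Agent.Helper22.LIL

open Pool.Agent.Helper22.GC Pool.Agent.Helper53.OM

noncomputable section

private theorem exists_W_upper : ∃ C : ℝ, 0 ≤ C ∧ ∀ N : ℕ, 1 ≤ N → MT.W N ≤ Real.log N / 2 + C := by
  obtain ⟨CS, hCS⟩ := MT.exists_S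
  have hCS0 : 0 ≤ CS := (abs_nonneg _).trans (hCS 1 le_rfl)
  have hl4 : 0 ≤ Real.log 4 := Real.log_nonneg (by norm_num)
  refine ⟨(Real.log 4 + 4 + CS) / 2, by positivity, fun N hN => ?_⟩
  have h1 : ∀ n ∈ Finset.Ioc 0 N, MT.aa n * Real.log n ≤
      (1 / 2) * (Λ n / n + MT.chi n * Λ n / n) := by
    intro n hn
    have hn0 : (0 : ℝ) < n := by exact_mod_cast (Finset.mem_Ioc.1 hn).1
    have h0 := @ArithmeticFunction.vonMangoldt_nonneg n
    have h0' : 0 ≤ Λ n / n := by positivity
    have hchi : MT.chi n * Λ n / n = MT.chi n * (Λ n / n) := by ring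
    rw [hchi]
    by_cases hp : n.Prime ∧ n % 4 = 1
    · rw [MT.aa, if_pos hp, ArithmeticFunction.vonMangoldt_apply_prime hp.1, MT.chi_eq, if_pos hp.2]
      apply le_of_eq
      ring
    · rw [MT.aa, if_neg hp, zero_mul]
      have h5 := (abs_le.1 (MT.abs_chi n)).1
      have h6 : (-1) * (Λ n / n) ≤ MT.chi n * (Λ n / n) := mul_le_mul_of_nonneg_right h5 h0'
      linarith
  have h2 := Finset.sum_le_sum h1
  rw [← Finset.mul_sum, Finset.sum_add_distrib] at h2
  have h6 := MT.vM_upper hN
  rw [← MT.sum_Ioc_eq_range (fun d => Λ d / d) (by simp) N] at h6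
  have h5 := (abs_le.1 (hCS N hN)).2
  change MT.W N ≤ (1 / 2) * (∑ n ∈ Finset.Ioc 0 N, Λ n / n + MT.S N) at h2
  linarith

private theorem abel_up {C : ℝ} (hW : ∀ N : ℕ, 1 ≤ N → MT.W N ≤ Real.log N / 2 + C) {N : ℕ}
    (hN : 2 ≤ N) : MT.A N - MT.W N / Real.log N ≤
      (Real.log (Real.log N) - Real.log (Real.log 2)) / 2 +
      C * (1 / Real.log 2 - 1 / Real.log N) := by
  have hl2 : (0.69 : ℝ) ≤ Real.log 2 := by
    have := Real.log_two_gt_d9
    linarith
  induction N, hN using Nat.le_induction with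
  | base =>
    have h1 : MT.A 2 = 0 := by
      rw [MT.A, show (2 : ℕ) = 0 + 1 + 1 by norm_num, Finset.sum_Ioc_succ_top (by norm_num),
        Finset.sum_Ioc_succ_top (by norm_num), MT.aa, MT.aa]
      norm_num
    have h2 : MT.W 2 = 0 := by
      rw [MT.W, show (2 : ℕ) = 0 + 1 + 1 by norm_num, Finset.sum_Ioc_succ_top (by norm_num),
        Finset.sum_Ioc_succ_top (by norm_num), MT.aa, MT.aa]
      norm_num
    rw [h1, h2]
    norm_num
  | succ N hN ih =>
    have hN2 : (2 : ℝ) ≤ N := by exact_mod_cast hN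
    set a := Real.log ((N + 1 : ℕ) : ℝ) with ha
    set b := Real.log (N : ℝ) with hb
    have hb0 : 0.69 ≤ b := hl2.trans (Real.log_le_log (by norm_num) hN2)
    have hab : b ≤ a := Real.log_le_log (by positivity) (by push_cast; linarith)
    have ha0 : 0 < a := by linarith
    have hb0' : 0 < b := by linarith
    have h1 : MT.A (N + 1) - MT.W (N + 1) / a = MT.A N - MT.W N / b + MT.W N * (1 / b - 1 / a) := by
      rw [MT.A, MT.W, Finset.sum_Ioc_succ_top (Nat.zero_le N),
        Finset.sum_Ioc_succ_top (Nat.zero_le N)]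
      change MT.A N + MT.aa (N + 1) - (MT.W N + MT.aa (N + 1) * a) / a =
        MT.A N - MT.W N / b + MT.W N * (1 / b - 1 / a)
      field_simp
      ring
    have h2 : MT.W N * (1 / b - 1 / a) ≤ (b / 2 + C) * (1 / b - 1 / a) :=
      mul_le_mul_of_nonneg_right (hW N (by omega))
        (sub_nonneg.2 (one_div_le_one_div_of_le hb0' hab))
    have h3 : Real.log b - Real.log a ≤ b / a - 1 := by
      rw [← Real.log_div hb0'.ne' ha0.ne']
      exact Real.log_le_sub_one_of_pos (by positivity)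
    have h6 : (b / 2 + C) * (1 / b - 1 / a) = (1 - b / a) / 2 + C * (1 / b - 1 / a) := by
      field_simp
    rw [h1]
    linarith

/-- MU: Mertens, upper bound for the primes `1 mod 4`. -/
theorem mertens_upper : ∃ C : ℝ, ∀ z : ℝ, 1 ≤ z →
    ∑ p ∈ P1 z, (1 : ℝ) / p ≤ 1 / 2 * Real.log (1 + Real.log z) + C := by
  obtain ⟨C, hC0, hW⟩ := exists_W_upper
  have hl2 : (0.69 : ℝ) ≤ Real.log 2 := by
    have := Real.log_two_gt_d9
    linarith
  have hl2' : Real.log (Real.log 2) ≤ 0 := by
    have := Real.log_two_lt_d9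
    exact Real.log_nonpos (by linarith) (by linarith)
  refine ⟨1 / 2 + C / Real.log 2 - Real.log (Real.log 2) / 2, fun z hz => ?_⟩
  have hlz : 0 ≤ Real.log z := Real.log_nonneg hz
  have h1 : ∑ p ∈ P1 z, (1 : ℝ) / p = MT.A ⌊z⌋₊ := by
    rw [P1, Finset.sum_filter, MT.A]
    apply Finset.sum_congr
    · ext n
      simp only [Finset.mem_Icc, Finset.mem_Ioc]
      omega
    · intro n _
      rfl
  rw [h1]
  have hN1 : 1 ≤ ⌊z⌋₊ := (Nat.one_le_floor_iff z).2 hz
  have hlog : 0 ≤ Real.log (1 + Real.log z) := Real.log_nonneg (by linarith)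
  rcases hN1.eq_or_lt with h2 | h2
  · rw [← h2]
    have h3 : MT.A 1 = 0 := by
      rw [MT.A, show (1 : ℕ) = 0 + 1 by norm_num, Finset.sum_Ioc_succ_top (by norm_num), MT.aa]
      norm_num
    rw [h3]
    have : 0 ≤ C / Real.log 2 := by positivity
    linarith
  · set N := ⌊z⌋₊ with hN
    have h3 := abel_up hW (show 2 ≤ N by omega)
    have hN2 : (2 : ℝ) ≤ N := by exact_mod_cast (show 2 ≤ N by omega)
    have hlN : Real.log 2 ≤ Real.log N := Real.log_le_log (by norm_num) hN2
    have hlN0 : 0 < Real.log N := by linarith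
    have h4 : MT.W N / Real.log N ≤ 1 / 2 + C * (1 / Real.log N) := by
      rw [div_le_iff₀ hlN0]
      have h5 := hW N (by omega)
      have h6 : (1 / 2 + C * (1 / Real.log N)) * Real.log N = Real.log N / 2 + C := by
        field_simp
      rw [h6]
      exact h5
    have h7 : Real.log (Real.log N) ≤ Real.log (1 + Real.log z) := by
      apply Real.log_le_log hlN0
      have h8 : Real.log N ≤ Real.log z :=
        Real.log_le_log (by linarith) (Nat.floor_le (by linarith))
      linarith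
    have h9 : C / Real.log 2 = C * (1 / Real.log 2) := by ring
    rw [h9]
    linarith

end

end Pool.Agent.Helper22.LIL
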