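import Pool.Agent.Helper9.LIL.U0
import Pool.Agent.Helper97.LIL.GR
import Pool.Agent.Helper11.LIL.HR

/-!
# Block U0 of the LIL project (MP_fb29e9_nt): `count_upper`
-/

open MeasureTheory Filter Set
open scoped Real Topology

namespace Pool.Agent.Helper22.LIL

open Pool.Agent.Helper22.GC Pool.Agent.Helper53.OM

noncomputable section

/-- U0 -/
theorem count_upper : ∃ C : ℝ, 0 < C ∧ ∀ (V : ℝ) (Q : Finset ℕ), 0 < V →
    (∀ q ∈ Q, 0 < q ∧ Squarefree q ∧ V ^ (-(3 / 4) : ℝ) ≤ rho q) →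
    (Q.card : ℝ) ≤ C * V * gV V :=
  U0.count_of (fun hp h4 _ hm k => gr_mul_pow_le hp h4 hm k) (fun hm => gr_two_mul_le hm)
    (fun hp h4 _ hm => gr_three hp h4 hm) hardy_ramanujan

end

end Pool.Agent.Helper22.LIL
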