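import Pool.Agent.Helper22.LIL.Defs

/-!
# Block U0 of the LIL project (MP_fb29e9_nt): the number of squarefree `q` with large `rho q`
-/

open MeasureTheory Filter Set
open scoped Real Topology

namespace Pool.Agent.Helper22.LIL

open Pool.Agent.Helper22.GC Pool.Agent.Helper53.OM

noncomputable section

namespace U0

/-- the hypotheses from the blocks GR and HR -/
def GR1 : Prop := ∀ {p : ℕ} (_ : p.Prime) (_ : p % 4 = 1) {m : ℕ} (_ : 0 < m) (k : ℕ),
    gr (m * p ^ k) ≤ (k + 1) * gr m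

/-- GR3 -/
def GR3 : Prop := ∀ {m : ℕ} (_ : 0 < m), gr (m * 2) ≤ gr m

/-- GR4 -/
def GR4 : Prop := ∀ {p : ℕ} (_ : p.Prime) (_ : p % 4 = 3) {m : ℕ} (_ : ¬ p ∣ m), gr (m * p) = 0

/-- HR -/
def HR : Prop := ∃ A D : ℝ, 0 < A ∧ 0 < D ∧ ∀ (k : ℕ) (x : ℝ), 1 < x →
    ((Wk (k + 1) x).card : ℝ) ≤
      A * x / Real.log x * ((1 / 2 * Real.log (1 + Real.log x) + D) ^ k / k.factorial)

theorem gr_one_le : gr 1 ≤ 4 := by
  classical
  have h : gS 1 ⊆ (({⟨1, 0⟩, ⟨-1, 0⟩, ⟨0, 1⟩, ⟨0, -1⟩} : Finset GaussianInt) : Set GaussianInt) := by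
    intro z hz
    have h1 : z.norm = ((1 : ℕ) : ℤ) := hz
    rw [Zsqrtd.norm_def] at h1
    obtain ⟨a, b⟩ := z
    simp only at h1
    have ha : -1 ≤ a ∧ a ≤ 1 := by
      push_cast at h1
      constructor <;> nlinarith [mul_self_nonneg b]
    have hb : -1 ≤ b ∧ b ≤ 1 := by
      push_cast at h1
      constructor <;> nlinarith [mul_self_nonneg a]
    obtain ⟨ha1, ha2⟩ := ha
    obtain ⟨hb1, hb2⟩ := hb
    simp only [Finset.coe_insert, Finset.coe_singleton, Set.mem_insert_iff, Set.mem_singleton_iff,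
      Zsqrtd.mk.injEq]
    interval_cases a <;> interval_cases b <;> simp_all
  unfold gr
  refine (Set.ncard_le_ncard h (Finset.finite_toSet _)).trans ?_
  rw [Set.ncard_coe_finset]
  exact Finset.card_le_four

theorem gr_prod_le (h1 : GR1) (S : Finset ℕ) (hS : ∀ p ∈ S, p.Prime ∧ p % 4 = 1) :
    0 < ∏ p ∈ S, p ∧ gr (∏ p ∈ S, p) ≤ 4 * 2 ^ S.card := by
  classical
  induction S using Finset.induction_on with
  | empty => simpa using gr_one_le
  | insert p S hp ih =>
    obtain ⟨h2, h3⟩ := ih fun q hq => hS q (Finset.mem_insert_of_mem hq)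
    obtain ⟨h4, h5⟩ := hS p (Finset.mem_insert_self _ _)
    rw [Finset.prod_insert hp, Finset.card_insert_of_notMem hp]
    refine ⟨Nat.mul_pos h4.pos h2, ?_⟩
    have h6 := h1 h4 h5 h2 1
    rw [pow_one, mul_comm _ p] at h6
    rw [pow_succ]
    linarith

theorem gr_le_of_good (h1 : GR1) {n : ℕ} (hn : Squarefree n)
    (hp : ∀ p, p.Prime → p ∣ n → p % 4 = 1) : gr n ≤ 4 * 2 ^ n.primeFactors.card := by
  have h2 := (gr_prod_le h1 n.primeFactors fun p h => ⟨Nat.prime_of_mem_primeFactors h,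
    hp p (Nat.prime_of_mem_primeFactors h) (Nat.dvd_of_mem_primeFactors h)⟩).2
  rwa [Nat.prod_primeFactors_of_squarefree hn] at h2

theorem pow_le_of_good {n : ℕ} (hn : Squarefree n)
    (hp : ∀ p, p.Prime → p ∣ n → p % 4 = 1) : 4 ^ n.primeFactors.card ≤ n := by
  have h2 : 4 ^ n.primeFactors.card ≤ ∏ p ∈ n.primeFactors, p := by
    refine Finset.pow_card_le_prod _ _ _ fun p h => ?_
    have h3 := hp p (Nat.prime_of_mem_primeFactors h) (Nat.dvd_of_mem_primeFactors h)
    have h4 := (Nat.prime_of_mem_primeFactors h).two_le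
    omega
  rwa [Nat.prod_primeFactors_of_squarefree hn] at h2

/-- the structure of `q` -/
theorem good_part (h3 : GR3) (h4 : GR4) {q : ℕ} (hq : 0 < q) (hs : Squarefree q) (hr : gr q ≠ 0) :
    ∃ n : ℕ, (q = n ∨ q = 2 * n) ∧ 0 < n ∧ Squarefree n ∧ (∀ p, p.Prime → p ∣ n → p % 4 = 1) ∧
      gr q ≤ gr n := by
  have key : ∀ n : ℕ, n ∣ q → ¬ 2 ∣ n → ∀ p, p.Prime → p ∣ n → p % 4 = 1 := by
    intro n hn h2 p hp hpn
    have hp2 : p % 2 = 1 := by
      rcases hp.eq_two_or_odd with h | h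
      · exact absurd (h ▸ hpn) h2
      · exact h
    by_contra hne
    have hp4 : p % 4 = 3 := by omega
    obtain ⟨m, hm⟩ := hpn.trans hn
    have hpm : ¬ p ∣ m := by
      intro h
      have h5 : p * p ∣ q := by
        rw [hm]
        exact mul_dvd_mul_left p h
      exact hp.one_lt.ne' (Nat.isUnit_iff.1 (hs p h5))
    have h6 := h4 hp hp4 hpm
    rw [mul_comm, ← hm] at h6
    exact hr h6
  by_cases h2 : 2 ∣ q
  · obtain ⟨n, hn⟩ := h2
    have hn0 : 0 < n := by
      rcases Nat.eq_zero_or_pos n with h | h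
      · subst h
        omega
      · exact h
    have hn2 : ¬ 2 ∣ n := by
      intro h
      have h5 : 2 * 2 ∣ q := by
        rw [hn]
        exact mul_dvd_mul_left 2 h
      exact absurd (Nat.isUnit_iff.1 (hs 2 h5)) (by norm_num)
    have hnq : n ∣ q := ⟨2, by rw [hn, mul_comm]⟩
    refine ⟨n, Or.inr hn, hn0, hs.squarefree_of_dvd hnq, key n hnq hn2, ?_⟩
    rw [hn, mul_comm]
    exact h3 hn0
  · exact ⟨q, Or.inl rfl, hq, hs, key q dvd_rfl h2, le_rfl⟩

/-- the cut-off for products of `k` primes -/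
def xk (V : ℝ) (k : ℕ) : ℝ := V * (4 * 2 ^ k : ℝ) ^ (4 / 3 : ℝ)

theorem le_xk {V : ℝ} (hV : 0 < V) {q g k : ℕ} (hq : 0 < q)
    (hr : V ^ (-(3 / 4) : ℝ) ≤ (g : ℝ) * (q : ℝ) ^ (-(3 / 4) : ℝ)) (hg : g ≤ 4 * 2 ^ k) :
    (q : ℝ) ≤ xk V k := by
  have hq0 : (0 : ℝ) < q := by exact_mod_cast hq
  have hg' : (g : ℝ) ≤ 4 * 2 ^ k := by exact_mod_cast hg
  have h1 : (q : ℝ) ^ (3 / 4 : ℝ) ≤ (4 * 2 ^ k) * V ^ (3 / 4 : ℝ) := by
    rw [Real.rpow_neg hV.le, Real.rpow_neg hq0.le] at hr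
    have h2 : (0 : ℝ) < V ^ (3 / 4 : ℝ) := Real.rpow_pos_of_pos hV _
    have h3 : (0 : ℝ) < (q : ℝ) ^ (3 / 4 : ℝ) := Real.rpow_pos_of_pos hq0 _
    rw [← div_eq_mul_inv, inv_eq_one_div, div_le_div_iff₀ h2 h3, one_mul] at hr
    exact hr.trans (mul_le_mul_of_nonneg_right hg' h2.le)
  have h4 := Real.rpow_le_rpow (by positivity) h1 (show (0 : ℝ) ≤ 4 / 3 by norm_num)
  rw [← Real.rpow_mul hq0.le, Real.mul_rpow (by positivity) (by positivity),
    ← Real.rpow_mul hV.le] at h4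
  norm_num at h4
  rw [xk, mul_comm]
  exact h4

theorem log_xk {V : ℝ} (hV : 0 < V) (k : ℕ) :
    Real.log (xk V k) = Real.log V + 4 / 3 * ((k + 2) * Real.log 2) := by
  rw [xk, Real.log_mul hV.ne' (by positivity), Real.log_rpow (by positivity),
    show (4 * 2 ^ k : ℝ) = 2 ^ (k + 2) by rw [pow_add]; ring, Real.log_pow]
  push_cast
  ring

theorem xk_succ {V : ℝ} (k : ℕ) : xk V (k + 1) = 16 * V * (2 * kap) ^ k := by
  have h1 : (4 * 2 ^ (k + 1) : ℝ) ^ (4 / 3 : ℝ) = 16 * (2 * kap) ^ k := by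
    have h2 : (4 * 2 ^ (k + 1) : ℝ) = 2 ^ 3 * 2 ^ k := by ring
    rw [h2, Real.mul_rpow (by positivity) (by positivity), ← Real.rpow_natCast 2 3,
      ← Real.rpow_mul (by norm_num), ← Real.rpow_natCast 2 k, ← Real.rpow_mul (by norm_num)]
    have h3 : (2 * kap : ℝ) = 2 ^ (4 / 3 : ℝ) := by
      rw [kap, show (4 / 3 : ℝ) = 1 + 1 / 3 by norm_num, Real.rpow_add (by norm_num),
        Real.rpow_one]
    rw [h3, ← Real.rpow_natCast ((2 : ℝ) ^ (4 / 3 : ℝ)) k, ← Real.rpow_mul (by norm_num),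
      mul_comm (4 / 3 : ℝ) (k : ℝ)]
    norm_num
  rw [xk, h1]
  ring

theorem card_Wk_zero (x : ℝ) : (Wk 0 x).card ≤ 1 := by
  classical
  rw [Finset.card_le_one]
  have key : ∀ n ∈ Wk 0 x, n = 1 := by
    intro n hn
    rw [Wk, Finset.mem_filter, Finset.mem_Icc] at hn
    obtain ⟨⟨h1, _⟩, _, _, h2⟩ := hn
    rw [Finset.card_eq_zero, Nat.primeFactors_eq_empty] at h2
    omega
  intro a ha b hb
  rw [key a ha, key b hb]

theorem one_le_kap : 1 ≤ kap := Real.one_le_rpow (by norm_num) (by norm_num)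

theorem one_le_gV {V : ℝ} (hV : 0 ≤ V) : 1 ≤ gV V := by
  have h1 : 0 ≤ Real.log (1 + V) := Real.log_nonneg (by linarith)
  exact Real.one_le_rpow (by linarith) (by linarith [one_le_kap])

/-- the case of large `V` -/
theorem count_large (h1 : GR1) (h3 : GR3) (h4 : GR4) (h5 : HR) :
    ∃ C : ℝ, 0 < C ∧ ∀ (V : ℝ) (Q : Finset ℕ), Real.exp 1 ≤ V →
    (∀ q ∈ Q, 0 < q ∧ Squarefree q ∧ V ^ (-(3 / 4) : ℝ) ≤ rho q) →
    (Q.card : ℝ) ≤ C * V * gV V := by
  classical
  obtain ⟨A, D, hA, hD, hHR⟩ := h5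
  set D' : ℝ := D + 1 / 2 * Real.log 10 with hD'
  have hl10 : 0 < Real.log 10 := Real.log_pos (by norm_num)
  have hD'0 : 0 < D' := by positivity
  set E : ℝ := Real.exp (2 * kap * D') with hE
  have hE0 : 0 < E := Real.exp_pos _
  refine ⟨2 + 64 * A * E, by positivity, fun V Q hV hQ => ?_⟩
  have hV0 : 0 < V := (Real.exp_pos 1).trans_le hV
  have hV1 : 1 ≤ V := le_trans (by linarith [Real.add_one_le_exp (1 : ℝ)]) hV
  set L : ℝ := Real.log V with hL
  have hL1 : 1 ≤ L := by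
    rw [hL, Real.le_log_iff_exp_le hV0]
    exact hV
  have hl2a : (0.69 : ℝ) < Real.log 2 := by linarith [Real.log_two_gt_d9]
  have hl2b : Real.log 2 < (0.6932 : ℝ) := by linarith [Real.log_two_lt_d9]
  set K : ℕ := ⌊7 * L⌋₊ with hK
  -- the covering
  have hcov : Q ⊆ (Finset.range (K + 1)).biUnion
      (fun k => Wk k (xk V k) ∪ (Wk k (xk V k)).image (fun n => 2 * n)) := by
    intro q hq
    obtain ⟨hq0, hqs, hqr⟩ := hQ q hq
    have hq0' : (0 : ℝ) < q := by exact_mod_cast hq0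
    have hgr : gr q ≠ 0 := by
      intro h
      rw [rho, h, Nat.cast_zero, zero_mul] at hqr
      exact absurd hqr (not_le.2 (Real.rpow_pos_of_pos hV0 _))
    obtain ⟨n, hn, hn0, hns, hnp, hgn⟩ := good_part h3 h4 hq0 hqs hgr
    set k := n.primeFactors.card with hk
    have hg : gr q ≤ 4 * 2 ^ k := hgn.trans (gr_le_of_good h1 hns hnp)
    have hqx : (q : ℝ) ≤ xk V k := le_xk hV0 hq0 hqr hg
    have hnq : n ≤ q := by
      rcases hn with h | h <;> omega
    have hnx : (n : ℝ) ≤ xk V k := le_trans (by exact_mod_cast hnq) hqx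
    have hn0' : (0 : ℝ) < n := by exact_mod_cast hn0
    have hkK : k ∈ Finset.range (K + 1) := by
      rw [Finset.mem_range, Nat.lt_succ_iff, hK]
      apply Nat.le_floor
      have h6 : ((4 ^ k : ℕ) : ℝ) ≤ n := by exact_mod_cast pow_le_of_good hns hnp
      have h7 : Real.log ((4 ^ k : ℕ) : ℝ) ≤ Real.log (xk V k) :=
        Real.log_le_log (by positivity) (h6.trans hnx)
      rw [log_xk hV0] at h7
      push_cast at h7
      rw [show (4 : ℝ) ^ k = 2 ^ (2 * k) by rw [pow_mul]; norm_num, Real.log_pow] at h7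
      push_cast at h7
      have h8 : (k : ℝ) * (2 / 3 * Real.log 2) ≤ L + 8 / 3 * Real.log 2 := by linarith
      by_contra hcon
      push Not at hcon
      nlinarith
    rw [Finset.mem_biUnion]
    refine ⟨k, hkK, ?_⟩
    have hnW : n ∈ Wk k (xk V k) := by
      rw [Wk, Finset.mem_filter, Finset.mem_Icc]
      exact ⟨⟨hn0, Nat.le_floor hnx⟩, hns, hnp, rfl⟩
    rw [Finset.mem_union, Finset.mem_image]
    rcases hn with h | h
    · left
      rw [h]
      exact hnW
    · right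
      exact ⟨n, hnW, h.symm⟩
  have hcard : (Q.card : ℝ) ≤ ∑ k ∈ Finset.range (K + 1), 2 * ((Wk k (xk V k)).card : ℝ) := by
    have h6 : Q.card ≤ ∑ k ∈ Finset.range (K + 1), 2 * (Wk k (xk V k)).card := by
      refine (Finset.card_le_card hcov).trans (Finset.card_biUnion_le.trans ?_)
      refine Finset.sum_le_sum fun k _ => ?_
      refine (Finset.card_union_le _ _).trans ?_
      have := Finset.card_image_le (s := Wk k (xk V k)) (f := fun n => 2 * n)
      omega
    exact_mod_cast h6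
  rw [Finset.sum_range_succ'] at hcard
  have h0 : 2 * ((Wk 0 (xk V 0)).card : ℝ) ≤ 2 := by
    have : ((Wk 0 (xk V 0)).card : ℝ) ≤ 1 := by exact_mod_cast card_Wk_zero (xk V 0)
    linarith
  set Y : ℝ := 1 / 2 * Real.log (1 + L) + D' with hY
  have hlogL : 0 ≤ Real.log (1 + L) := Real.log_nonneg (by linarith)
  have hY0 : 0 < Y := by positivity
  have hstep : ∀ k ∈ Finset.range K, 2 * ((Wk (k + 1) (xk V (k + 1))).card : ℝ) ≤
      32 * A * V / L * ((2 * kap * Y) ^ k / k.factorial) := by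
    intro k hk
    rw [Finset.mem_range] at hk
    have hkL : ((k + 1 : ℕ) : ℝ) ≤ 7 * L := by
      have h6 : k + 1 ≤ K := hk
      exact (Nat.cast_le.2 h6).trans (Nat.floor_le (by positivity))
    have hlx := log_xk hV0 (k + 1)
    rw [← hL] at hlx
    have hk0 : (0 : ℝ) ≤ ((k + 1 : ℕ) : ℝ) := Nat.cast_nonneg _
    have hlow : L ≤ Real.log (xk V (k + 1)) := by
      rw [hlx]
      have : 0 ≤ 4 / 3 * ((((k + 1 : ℕ) : ℝ) + 2) * Real.log 2) := by positivity
      linarith
    have hup : Real.log (xk V (k + 1)) ≤ 10 * L - 1 + 1 := by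
      rw [hlx]
      nlinarith
    have hx1 : 1 < xk V (k + 1) := by
      have h6 : 0 < Real.log (xk V (k + 1)) := by linarith
      have h7 : 0 < xk V (k + 1) := by
        rw [xk]
        positivity
      exact (Real.log_pos_iff h7.le).1 h6
    have h6 := hHR k _ hx1
    have h7 : 1 / 2 * Real.log (1 + Real.log (xk V (k + 1))) + D ≤ Y := by
      have h8 : Real.log (1 + Real.log (xk V (k + 1))) ≤ Real.log (10 * (1 + L)) :=
        Real.log_le_log (by linarith) (by linarith)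
      rw [Real.log_mul (by norm_num) (by linarith)] at h8
      rw [hY, hD']
      linarith
    have h7' : 0 ≤ 1 / 2 * Real.log (1 + Real.log (xk V (k + 1))) + D := by
      have : 0 ≤ Real.log (1 + Real.log (xk V (k + 1))) := Real.log_nonneg (by linarith)
      positivity
    have h8 : A * xk V (k + 1) / Real.log (xk V (k + 1)) ≤ A * xk V (k + 1) / L := by
      have : 0 < A * xk V (k + 1) := by
        have := zero_lt_one.trans hx1
        positivity
      gcongr
    have h9 : (1 / 2 * Real.log (1 + Real.log (xk V (k + 1))) + D) ^ k / (k.factorial : ℝ) ≤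
        Y ^ k / k.factorial := by
      gcongr
    have h10 : ((Wk (k + 1) (xk V (k + 1))).card : ℝ) ≤
        A * xk V (k + 1) / L * (Y ^ k / k.factorial) := by
      refine h6.trans (mul_le_mul h8 h9 (by positivity) ?_)
      have := zero_lt_one.trans hx1
      positivity
    rw [xk_succ] at h10
    calc 2 * ((Wk (k + 1) (xk V (k + 1))).card : ℝ)
        ≤ 2 * (A * (16 * V * (2 * kap) ^ k) / L * (Y ^ k / k.factorial)) := by
          rw [xk_succ]
          linarith
      _ = _ := by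
          rw [mul_pow (2 * kap) Y k]
          ring
  have hsum : ∑ k ∈ Finset.range K, 2 * ((Wk (k + 1) (xk V (k + 1))).card : ℝ) ≤
      32 * A * V / L * Real.exp (2 * kap * Y) := by
    refine (Finset.sum_le_sum hstep).trans ?_
    rw [← Finset.mul_sum]
    have hk0 := one_le_kap
    have h6 := Real.sum_le_exp_of_nonneg (x := 2 * kap * Y) (by positivity) K
    have : 0 ≤ 32 * A * V / L := by positivity
    exact mul_le_mul_of_nonneg_left h6 this
  have hexp : Real.exp (2 * kap * Y) = E * ((1 + L) ^ (kap - 1) * (1 + L)) := by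
    rw [hE, hY]
    have h6 : 2 * kap * (1 / 2 * Real.log (1 + L) + D') =
        2 * kap * D' + Real.log (1 + L) * kap := by ring
    rw [h6, Real.exp_add, ← Real.rpow_def_of_pos (by linarith : 0 < 1 + L),
      Real.rpow_sub_one (by linarith : (1 + L) ≠ 0), div_mul_cancel₀ _ (by linarith)]
  have hgl : (1 + L) ^ (kap - 1) ≤ gV V := by
    rw [gV]
    apply Real.rpow_le_rpow (by linarith) _ (by linarith [one_le_kap])
    have : L ≤ Real.log (1 + V) := Real.log_le_log hV0 (by linarith)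
    linarith
  have hg1 := one_le_gV hV0.le
  have hfin : 32 * A * V / L * Real.exp (2 * kap * Y) ≤ 64 * A * E * V * gV V := by
    rw [hexp]
    have h6 : (1 + L) / L ≤ 2 := by
      rw [div_le_iff₀ (by linarith)]
      linarith
    have h7 : 0 ≤ (1 + L) ^ (kap - 1) := by
      apply Real.rpow_nonneg
      linarith
    calc 32 * A * V / L * (E * ((1 + L) ^ (kap - 1) * (1 + L)))
        = 32 * A * E * V * (1 + L) ^ (kap - 1) * ((1 + L) / L) := by ring
      _ ≤ 32 * A * E * V * (1 + L) ^ (kap - 1) * 2 := by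
          apply mul_le_mul_of_nonneg_left h6
          positivity
      _ = 64 * A * E * V * (1 + L) ^ (kap - 1) := by ring
      _ ≤ _ := by
          apply mul_le_mul_of_nonneg_left hgl
          positivity
  have h2V : 2 ≤ 2 * V * gV V := by nlinarith
  calc (Q.card : ℝ) ≤ 64 * A * E * V * gV V + 2 * V * gV V := by linarith
    _ = (2 + 64 * A * E) * V * gV V := by ring

theorem rho_le {q : ℕ} (h1 : GR1) (h3 : GR3) (h4 : GR4) (hq : 0 < q) (hs : Squarefree q) :
    rho q ≤ 4 := by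
  by_cases hr : gr q = 0
  · rw [rho, hr]
    norm_num
  obtain ⟨n, hn, hn0, hns, hnp, hgn⟩ := good_part h3 h4 hq hs hr
  have hg := hgn.trans (gr_le_of_good h1 hns hnp)
  have h5 := pow_le_of_good hns hnp
  have hnq : n ≤ q := by
    rcases hn with h | h <;> omega
  set k := n.primeFactors.card
  have hq0 : (0 : ℝ) < q := by exact_mod_cast hq
  have h6 : ((4 : ℝ) ^ k) ≤ q := by exact_mod_cast h5.trans hnq
  have h7 : (2 : ℝ) ^ k ≤ (q : ℝ) ^ (3 / 4 : ℝ) := by
    have h8 : (2 : ℝ) ^ k = ((4 : ℝ) ^ k) ^ (1 / 2 : ℝ) := by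
      rw [← Real.sqrt_eq_rpow, show (4 : ℝ) ^ k = (2 ^ k) ^ 2 by rw [← pow_mul, mul_comm, pow_mul]; norm_num,
        Real.sqrt_sq (by positivity)]
    rw [h8]
    refine (Real.rpow_le_rpow (by positivity) h6 (by norm_num)).trans ?_
    apply Real.rpow_le_rpow_of_exponent_le _ (by norm_num)
    exact_mod_cast hq
  have hg' : (gr q : ℝ) ≤ 4 * 2 ^ k := by exact_mod_cast hg
  rw [rho, Real.rpow_neg hq0.le, ← div_eq_mul_inv, div_le_iff₀ (Real.rpow_pos_of_pos hq0 _)]
  linarith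

theorem count_of (h1 : GR1) (h3 : GR3) (h4 : GR4) (h5 : HR) :
    ∃ C : ℝ, 0 < C ∧ ∀ (V : ℝ) (Q : Finset ℕ), 0 < V →
    (∀ q ∈ Q, 0 < q ∧ Squarefree q ∧ V ^ (-(3 / 4) : ℝ) ≤ rho q) →
    (Q.card : ℝ) ≤ C * V * gV V := by
  obtain ⟨C, hC, h⟩ := count_large h1 h3 h4 h5
  set e := Real.exp 1 with he
  have he0 : 0 < e := Real.exp_pos 1
  have hge : 1 ≤ gV e := one_le_gV he0.le
  refine ⟨C + 8 * (C * e * gV e), by positivity, fun V Q hV hQ => ?_⟩
  have hg1 := one_le_gV hV.le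
  rcases le_total e V with hVe | hVe
  · refine (h V Q hVe hQ).trans ?_
    have : 0 ≤ 8 * (C * e * gV e) := by positivity
    gcongr
    linarith
  · rcases Q.eq_empty_or_nonempty with rfl | ⟨q, hq⟩
    · simp only [Finset.card_empty, Nat.cast_zero]
      positivity
    have h6 := h e Q le_rfl (fun q hq => by
      obtain ⟨h7, h8, h9⟩ := hQ q hq
      refine ⟨h7, h8, le_trans ?_ h9⟩
      exact Real.rpow_le_rpow_of_nonpos hV hVe (by norm_num))
    obtain ⟨h7, h8, h9⟩ := hQ q hq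
    have h10 := h9.trans (rho_le h1 h3 h4 h7 h8)
    have h11 : 1 ≤ 8 * V := by
      have h12 := Real.rpow_le_rpow (by positivity) h10 (show (0 : ℝ) ≤ 4 / 3 by norm_num)
      rw [← Real.rpow_mul hV.le] at h12
      norm_num at h12
      have h13 : (4 : ℝ) ^ (4 / 3 : ℝ) ≤ 8 := by
        have h14 : (4 : ℝ) ^ (4 / 3 : ℝ) ≤ 4 ^ (3 / 2 : ℝ) :=
          Real.rpow_le_rpow_of_exponent_le (by norm_num) (by norm_num)
        refine h14.trans (le_of_eq ?_)
        rw [show (4 : ℝ) = 2 ^ (2 : ℝ) by norm_num, ← Real.rpow_mul (by norm_num)]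
        norm_num
      rw [Real.rpow_neg_one] at h12
      have h15 : V⁻¹ ≤ 8 := h12.trans h13
      rw [inv_le_iff_one_le_mul₀ hV] at h15
      exact h15
    have h12 : 0 ≤ C * e * gV e := by positivity
    calc (Q.card : ℝ) ≤ C * e * gV e := h6
      _ = (C * e * gV e) * 1 * 1 := by ring
      _ ≤ (C * e * gV e) * (8 * V) * gV V := by gcongr
      _ ≤ _ := by
        have : 0 ≤ C * V * gV V := by positivity
        linarith

end U0

end

end Pool.Agent.Helper22.LIL
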